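import Mathlib

set_option autoImplicit false

/-!
# The Tutte polynomial lies in the ideal of the vertex contractions at a neighbourhood
-/

namespace Pool.Agent.Results.MP_8e541a_co.TutteIdeal

/-- A finite multigraph (loops and parallel edges allowed). -/
structure MGraph where
  /-- vertices -/
  V : Type
  /-- edges -/
  E : Type
  /-- the unordered pair of ends of an edge -/
  ends : E → Sym2 V
  finV : Finite V
  finE : Finite E

/-- The number of connected components of the spanning subgraph `(V, A)`. -/
noncomputable def comps (G : MGraph) (A : Set G.E) : ℕ :=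
  Nat.card (Quot fun u v : G.V => ∃ e ∈ A, G.ends e = s(u, v))

/-- `r(A) = |V| - k(A)`. -/
noncomputable def rk (G : MGraph) (A : Set G.E) : ℕ :=
  Nat.card G.V - comps G A

/-- The Tutte polynomial in the variables `x = X 0` and `y = X 1`. -/
noncomputable def tutte (R : Type) [CommRing R] (G : MGraph) : MvPolynomial (Fin 2) R :=
  ∑ᶠ A : Set G.E, (MvPolynomial.X 0 - 1) ^ (rk G Set.univ - rk G A) *
    (MvPolynomial.X 1 - 1) ^ (A.ncard - rk G A)

/-- The vertex contraction: all the vertices of `U` are identified. -/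
def contract (G : MGraph) (U : Set G.V) : MGraph where
  V := Quot fun a b : G.V => a ∈ U ∧ b ∈ U
  E := G.E
  ends := fun e => (G.ends e).map (Quot.mk _)
  finV := by
    have := G.finV
    exact Finite.of_surjective (Quot.mk _) Quot.mk_surjective
  finE := G.finE

/-- Deletion of all the loops. -/
def noLoops (G : MGraph) : MGraph where
  V := G.V
  E := {e : G.E // ¬ (G.ends e).IsDiag}
  ends := fun e => G.ends e.1
  finV := G.finV
  finE := by
    have := G.finE
    infer_instance

/-- The neighbours of `s`, excluding `s`. -/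
def nbrs (G : MGraph) (s : G.V) : Set G.V := {w | w ≠ s ∧ ∃ e, G.ends e = s(s, w)}

/-! ### Counting classes -/

section Classes

variable {V : Type}

theorem card_quot_congr {r r' : V → V → Prop}
    (h : ∀ a b, r a b → Quot.mk r' a = Quot.mk r' b)
    (h' : ∀ a b, r' a b → Quot.mk r a = Quot.mk r b) :
    Nat.card (Quot r) = Nat.card (Quot r') := by
  refine Nat.card_congr ⟨Quot.lift (Quot.mk r') h, Quot.lift (Quot.mk r) h', ?_, ?_⟩
  · rintro ⟨a⟩; rfl
  · rintro ⟨a⟩; rfl

theorem card_quot_quot {r r' : V → V → Prop} {r'' : Quot r → Quot r → Prop}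
    (h1 : ∀ a b, r a b → Quot.mk r' a = Quot.mk r' b)
    (h2 : ∀ a b, r'' (Quot.mk r a) (Quot.mk r b) → Quot.mk r' a = Quot.mk r' b)
    (h3 : ∀ a b, r' a b → Quot.mk r'' (Quot.mk r a) = Quot.mk r'' (Quot.mk r b)) :
    Nat.card (Quot r'') = Nat.card (Quot r') := by
  refine Nat.card_congr ⟨Quot.lift (Quot.lift (Quot.mk r') h1) ?_,
    Quot.lift (fun a => Quot.mk r'' (Quot.mk r a)) h3, ?_, ?_⟩
  · rintro ⟨a⟩ ⟨b⟩ h; exact h2 a b h
  · rintro ⟨⟨a⟩⟩; rfl
  · rintro ⟨a⟩; rfl

/-- Merging two different classes. -/
theorem card_merge [Finite V] {x y : V} (hxy : x ≠ y) :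
    Nat.card (Quot fun p q : V => p = x ∧ q = y) + 1 = Nat.card V := by
  classical
  let f : Quot (fun p q : V => p = x ∧ q = y) → V :=
    Quot.lift (fun p => if p = y then x else p) (by
      rintro a b ⟨rfl, rfl⟩
      simp)
  have hf : Function.Injective f := by
    rintro ⟨a⟩ ⟨b⟩ h
    have h1 : ∀ a : V, Quot.mk (fun p q : V => p = x ∧ q = y) (if a = y then x else a) =
        Quot.mk _ a := by
      intro a
      by_cases ha : a = y
      · rw [if_pos ha, ha]
        exact Quot.sound ⟨rfl, rfl⟩
      · rw [if_neg ha]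
    have h2 : (if a = y then x else a) = (if b = y then x else b) := h
    have h3 := h1 a
    rw [h2, h1 b] at h3
    exact h3.symm
  have hr : Set.range f = {y}ᶜ := by
    ext z
    simp only [Set.mem_range, Set.mem_compl_iff, Set.mem_singleton_iff]
    constructor
    · rintro ⟨⟨a⟩, rfl⟩
      show (if a = y then x else a) ≠ y
      split_ifs with h
      · exact hxy
      · exact h
    · intro hz
      exact ⟨Quot.mk _ z, if_neg hz⟩
  rw [Nat.card_congr (Equiv.ofInjective f hf), hr]
  have h1 := Set.ncard_add_ncard_compl ({y} : Set V)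
  rw [Set.ncard_singleton] at h1
  rw [Nat.card_coe_set_eq]
  omega

theorem card_add {r : V → V → Prop} [Finite V] {x y : V} (hxy : Quot.mk r x ≠ Quot.mk r y) :
    Nat.card (Quot fun p q : V => r p q ∨ (p = x ∧ q = y)) + 1 = Nat.card (Quot r) := by
  have : Finite (Quot r) := Finite.of_surjective (Quot.mk r) Quot.mk_surjective
  rw [← card_merge hxy]
  congr 1
  symm
  apply card_quot_quot
  · intro a b h
    exact Quot.sound (Or.inl h)
  · intro a b h
    have e1 : ∀ a b, Quot.mk r a = Quot.mk r b →
        Quot.mk (fun p q : V => r p q ∨ (p = x ∧ q = y)) a = Quot.mk _ b := by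
      intro a b hab
      exact congrArg (Quot.lift (Quot.mk (fun p q : V => r p q ∨ (p = x ∧ q = y)))
        (fun c d h => Quot.sound (Or.inl h))) hab
    rw [e1 a x h.1, e1 b y h.2]
    exact Quot.sound (Or.inr ⟨rfl, rfl⟩)
  · intro a b h
    rcases h with h | ⟨rfl, rfl⟩
    · rw [Quot.sound h]
    · exact Quot.sound ⟨rfl, rfl⟩

theorem card_add_le {r : V → V → Prop} [Finite V] (x y : V) :
    Nat.card (Quot r) ≤ Nat.card (Quot fun p q : V => r p q ∨ (p = x ∧ q = y)) + 1 := by
  by_cases h : Quot.mk r x = Quot.mk r y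
  · have : Nat.card (Quot r) = Nat.card (Quot fun p q : V => r p q ∨ (p = x ∧ q = y)) := by
      apply card_quot_congr
      · intro a b h
        exact Quot.sound (Or.inl h)
      · intro a b h'
        rcases h' with h' | ⟨rfl, rfl⟩
        · exact Quot.sound h'
        · exact h
    omega
  · exact (card_add h).ge

end Classes

/-! ### The partition function -/

section Partition

variable {V E : Type} (ends : E → Sym2 V)

/-- The relation generated by the edges of `A` and the identification of `U`. -/
def rel (A : Set E) (U : Set V) (a b : V) : Prop := (∃ e ∈ A, ends e = s(a, b)) ∨ (a ∈ U ∧ b ∈ U)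

/-- The number of classes. -/
noncomputable def kap (A : Set E) (U : Set V) : ℕ := Nat.card (Quot (rel ends A U))

/-- `e` is a loop after the identification of `U`. -/
def IsLoopMod (U : Set V) (e : E) : Prop := ∀ a b, ends e = s(a, b) → a = b ∨ (a ∈ U ∧ b ∈ U)

variable {ends}

theorem kap_insert_edge {A : Set E} {U : Set V} {e : E} {s u : V} (hs : s ∈ U)
    (he : ends e = s(s, u)) : kap ends (insert e A) U = kap ends A (insert u U) := by
  apply card_quot_congr
  · rintro a b (⟨f, hf, hab⟩ | h)
    · rcases hf with rfl | hf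
      · rw [he] at hab
        rcases Sym2.eq_iff.1 hab with ⟨rfl, rfl⟩ | ⟨rfl, rfl⟩
        · exact Quot.sound (Or.inr ⟨Or.inr hs, Or.inl rfl⟩)
        · exact Quot.sound (Or.inr ⟨Or.inl rfl, Or.inr hs⟩)
      · exact Quot.sound (Or.inl ⟨f, hf, hab⟩)
    · exact Quot.sound (Or.inr ⟨Or.inr h.1, Or.inr h.2⟩)
  · have hu : ∀ a ∈ insert u U, Quot.mk (rel ends (insert e A) U) s = Quot.mk _ a := by
      rintro a (rfl | ha)
      · exact Quot.sound (Or.inl ⟨e, Or.inl rfl, he⟩)
      · exact Quot.sound (Or.inr ⟨hs, ha⟩)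
    rintro a b (⟨f, hf, hab⟩ | h)
    · exact Quot.sound (Or.inl ⟨f, Or.inr hf, hab⟩)
    · rw [← hu a h.1, hu b h.2]

theorem kap_insert_loop {A : Set E} {U : Set V} {e : E} (he : IsLoopMod ends U e) :
    kap ends (insert e A) U = kap ends A U := by
  apply card_quot_congr
  · rintro a b (⟨f, hf, hab⟩ | h)
    · rcases hf with rfl | hf
      · rcases he a b hab with rfl | h
        · rfl
        · exact Quot.sound (Or.inr h)
      · exact Quot.sound (Or.inl ⟨f, hf, hab⟩)
    · exact Quot.sound (Or.inr h)
  · rintro a b (⟨f, hf, hab⟩ | h)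
    · exact Quot.sound (Or.inl ⟨f, Or.inr hf, hab⟩)
    · exact Quot.sound (Or.inr h)

theorem kap_isolated [Finite V] {A : Set E} {s w : V} (hsw : s ≠ w)
    (hA : ∀ e ∈ A, ∀ b, ends e = s(s, b) → b = s) :
    kap ends A {s} = kap ends A (insert w {s}) + 1 := by
  have hne : Quot.mk (rel ends A {s}) s ≠ Quot.mk (rel ends A {s}) w := by
    intro h
    have hl : ∀ a b, rel ends A {s} a b → (a = s) = (b = s) := by
      rintro a b (⟨e, he, hab⟩ | ⟨ha, hb⟩)
      · apply propext
        constructor
        · rintro rfl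
          exact hA e he b hab
        · rintro rfl
          exact hA e he a (hab.trans Sym2.eq_swap)
      · rw [Set.mem_singleton_iff.1 ha, Set.mem_singleton_iff.1 hb]
    have := congrArg (Quot.lift (fun a => a = s) hl) h
    have h2 : (s = s) = (w = s) := this
    exact hsw (h2 ▸ rfl : w = s).symm
  have h := card_add hne
  rw [kap, ← h]
  congr 1
  apply card_quot_congr
  · rintro a b ((⟨f, hf, hab⟩ | h) | ⟨rfl, rfl⟩)
    · exact Quot.sound (Or.inl ⟨f, hf, hab⟩)
    · exact Quot.sound (Or.inr ⟨Or.inr h.1, Or.inr h.2⟩)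
    · exact Quot.sound (Or.inr ⟨Or.inr rfl, Or.inl rfl⟩)
  · have hu : ∀ a ∈ insert w ({s} : Set V), Quot.mk (fun p q : V => rel ends A {s} p q ∨
        (p = s ∧ q = w)) s = Quot.mk _ a := by
      rintro a (rfl | ha)
      · exact Quot.sound (Or.inr ⟨rfl, rfl⟩)
      · rw [Set.mem_singleton_iff.1 ha]
    rintro a b (⟨f, hf, hab⟩ | h)
    · exact Quot.sound (Or.inl (Or.inl ⟨f, hf, hab⟩))
    · rw [← hu a h.1, hu b h.2]

theorem kap_empty_insert [Finite V] {U : Set V} {s u : V} (hs : s ∈ U) (hu : u ∉ U) :
    kap ends ∅ (insert u U) + 1 = kap ends ∅ U := by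
  have hne : Quot.mk (rel ends ∅ U) s ≠ Quot.mk (rel ends ∅ U) u := by
    intro h
    have hl : ∀ a b, rel ends ∅ U a b → (a ∈ U) = (b ∈ U) := by
      rintro a b (⟨e, he, hab⟩ | ⟨ha, hb⟩)
      · exact absurd he (Set.notMem_empty e)
      · simp [ha, hb]
    have := congrArg (Quot.lift (fun a => a ∈ U) hl) h
    have h2 : (s ∈ U) = (u ∈ U) := this
    exact hu (h2 ▸ hs)
  have h := card_add hne
  rw [kap, kap, ← h]
  congr 1
  apply card_quot_congr
  · have hu' : ∀ a ∈ insert u U, Quot.mk (fun p q : V => rel ends ∅ U p q ∨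
        (p = s ∧ q = u)) s = Quot.mk _ a := by
      rintro a (rfl | ha)
      · exact Quot.sound (Or.inr ⟨rfl, rfl⟩)
      · exact Quot.sound (Or.inl (Or.inr ⟨hs, ha⟩))
    rintro a b (⟨f, hf, hab⟩ | h)
    · exact absurd hf (Set.notMem_empty f)
    · rw [← hu' a h.1, hu' b h.2]
  · rintro a b ((⟨f, hf, hab⟩ | h) | ⟨rfl, rfl⟩)
    · exact absurd hf (Set.notMem_empty f)
    · exact Quot.sound (Or.inr ⟨Or.inr h.1, Or.inr h.2⟩)
    · exact Quot.sound (Or.inr ⟨Or.inr hs, Or.inl rfl⟩)

theorem kap_empty_singleton (s : V) : kap ends ∅ {s} = Nat.card V := by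
  have h : ∀ a b, rel ends ∅ {s} a b → a = b := by
    rintro a b (⟨e, he, _⟩ | ⟨ha, hb⟩)
    · exact absurd he (Set.notMem_empty e)
    · rw [Set.mem_singleton_iff.1 ha, Set.mem_singleton_iff.1 hb]
  refine Nat.card_congr ⟨Quot.lift id h, Quot.mk _, ?_, ?_⟩
  · rintro ⟨a⟩; rfl
  · intro a; rfl

theorem kap_empty_card [Finite V] [DecidableEq V] (s : V) (W : Finset V) (hs : s ∉ W) :
    kap ends ∅ (insert s (W : Set V)) + W.card = Nat.card V := by
  induction W using Finset.induction_on with
  | empty =>
    have : insert s ((∅ : Finset V) : Set V) = {s} := by simp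
    rw [this, kap_empty_singleton]
    simp
  | insert u W hu ih =>
    rw [Finset.mem_insert, not_or] at hs
    have h1 := ih hs.2
    have h2 := kap_empty_insert (ends := ends) (U := insert s (W : Set V)) (s := s) (u := u)
      (Or.inl rfl) (by
        rintro (h | h)
        · exact hs.1 h.symm
        · exact hu h)
    rw [Finset.coe_insert, Set.insert_comm, Finset.card_insert_of_notMem hu]
    omega

end Partition

section Poly

variable {V E : Type} (R : Type) [CommRing R] (ends : E → Sym2 V)

/-- The partition function. -/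
noncomputable def Z (F : Finset E) (U : Set V) : MvPolynomial (Fin 2) R :=
  ∑ A ∈ F.powerset, (MvPolynomial.X 0 - 1) ^ kap ends (A : Set E) U *
    (MvPolynomial.X 1 - 1) ^ (A.card + kap ends (A : Set E) U)

variable [DecidableEq E]

theorem Z_insert_edge {F : Finset E} {U : Set V} {e : E} {s u : V} (hs : s ∈ U) (heF : e ∉ F)
    (he : ends e = s(s, u)) : Z R ends (insert e F) U =
      Z R ends F U + (MvPolynomial.X 1 - 1) * Z R ends F (insert u U) := by
  rw [Z, Finset.sum_powerset_insert heF, Z, Z, Finset.mul_sum]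
  congr 1
  apply Finset.sum_congr rfl
  intro A hA
  have : e ∉ A := fun h => heF (Finset.mem_powerset.1 hA h)
  rw [Finset.coe_insert, kap_insert_edge hs he, Finset.card_insert_of_notMem this]
  ring

theorem Z_insert_loop {F : Finset E} {U : Set V} {e : E} (heF : e ∉ F)
    (he : IsLoopMod ends U e) : Z R ends (insert e F) U = MvPolynomial.X 1 * Z R ends F U := by
  rw [Z, Finset.sum_powerset_insert heF, Z, Finset.mul_sum, ← Finset.sum_add_distrib]
  apply Finset.sum_congr rfl
  intro A hA
  have : e ∉ A := fun h => heF (Finset.mem_powerset.1 hA h)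
  rw [Finset.coe_insert, kap_insert_loop he, Finset.card_insert_of_notMem this]
  ring

theorem Z_loops {F : Finset E} {U : Set V} (B : Finset E) (hB : ∀ e ∈ B, IsLoopMod ends U e)
    (hd : ∀ e ∈ B, e ∉ F) :
    Z R ends (F ∪ B) U = MvPolynomial.X 1 ^ B.card * Z R ends F U := by
  induction B using Finset.induction_on with
  | empty => simp
  | insert e B he ih =>
    have h1 : F ∪ insert e B = insert e (F ∪ B) := by
      ext x; simp only [Finset.mem_union, Finset.mem_insert]; tauto
    have h2 : e ∉ F ∪ B := by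
      rw [Finset.mem_union, not_or]
      exact ⟨hd e (Finset.mem_insert_self _ _), he⟩
    rw [h1, Z_insert_loop R ends h2 (hB e (Finset.mem_insert_self _ _)),
      ih (fun f hf => hB f (Finset.mem_insert_of_mem hf))
        (fun f hf => hd f (Finset.mem_insert_of_mem hf)), Finset.card_insert_of_notMem he]
    ring

theorem Z_edges {F : Finset E} {U : Set V} {s u : V} (hs : s ∈ U) (B : Finset E)
    (hB : ∀ e ∈ B, ends e = s(s, u)) (hd : ∀ e ∈ B, e ∉ F) :
    ∃ c, Z R ends (F ∪ B) U = Z R ends F U +
      (MvPolynomial.X 1 - 1) * (c * Z R ends F (insert u U)) := by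
  induction B using Finset.induction_on with
  | empty => exact ⟨0, by simp⟩
  | insert e B he ih =>
    obtain ⟨c, hc⟩ := ih (fun f hf => hB f (Finset.mem_insert_of_mem hf))
      (fun f hf => hd f (Finset.mem_insert_of_mem hf))
    have h1 : F ∪ insert e B = insert e (F ∪ B) := by
      ext x; simp only [Finset.mem_union, Finset.mem_insert]; tauto
    have h2 : e ∉ F ∪ B := by
      rw [Finset.mem_union, not_or]
      exact ⟨hd e (Finset.mem_insert_self _ _), he⟩
    have h3 : Z R ends (F ∪ B) (insert u U) =
        MvPolynomial.X 1 ^ B.card * Z R ends F (insert u U) := by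
      apply Z_loops
      · intro f hf a b hab
        rw [hB f (Finset.mem_insert_of_mem hf)] at hab
        rcases Sym2.eq_iff.1 hab with ⟨rfl, rfl⟩ | ⟨rfl, rfl⟩
        · exact Or.inr ⟨Or.inr hs, Or.inl rfl⟩
        · exact Or.inr ⟨Or.inl rfl, Or.inr hs⟩
      · exact fun f hf => hd f (Finset.mem_insert_of_mem hf)
    refine ⟨c + MvPolynomial.X 1 ^ B.card, ?_⟩
    rw [h1, Z_insert_edge R ends hs h2 (hB e (Finset.mem_insert_self _ _)), hc, h3]
    ring

omit [DecidableEq E] in
theorem Z_isolated [Finite V] {F : Finset E} {s w : V} (hsw : s ≠ w)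
    (hF : ∀ e ∈ F, ∀ b, ends e = s(s, b) → b = s) :
    Z R ends F {s} = (MvPolynomial.X 0 - 1) * (MvPolynomial.X 1 - 1) *
      Z R ends F (insert w {s}) := by
  rw [Z, Z, Finset.mul_sum]
  apply Finset.sum_congr rfl
  intro A hA
  rw [kap_isolated hsw (fun e he => hF e (Finset.mem_powerset.1 hA (by simpa using he)))]
  ring

end Poly

/-! ### Relation with the Tutte polynomial -/

section Graph

theorem comps_anti (G : MGraph) {A B : Set G.E} (h : A ⊆ B) : comps G B ≤ comps G A := by
  have := G.finV
  have : Finite (Quot fun u v : G.V => ∃ e ∈ A, G.ends e = s(u, v)) :=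
    Finite.of_surjective (Quot.mk _) Quot.mk_surjective
  refine Nat.card_le_card_of_surjective
    (Quot.lift (Quot.mk (fun u v : G.V => ∃ e ∈ B, G.ends e = s(u, v))) ?_) ?_
  · rintro a b ⟨e, he, hab⟩
    exact Quot.sound ⟨e, h he, hab⟩
  · rintro ⟨a⟩
    exact ⟨Quot.mk _ a, rfl⟩

theorem comps_le (G : MGraph) (A : Set G.E) : comps G A ≤ Nat.card G.V := by
  have := G.finV
  exact Nat.card_le_card_of_surjective (Quot.mk _) Quot.mk_surjective

theorem le_comps (G : MGraph) (A : Set G.E) : Nat.card G.V ≤ A.ncard + comps G A := by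
  classical
  have := G.finV
  have := G.finE
  induction A, Set.toFinite A using Set.Finite.induction_on with
  | empty =>
    have : Nat.card G.V = comps G ∅ := by
      refine Nat.card_congr ⟨Quot.mk _, Quot.lift id ?_, ?_, ?_⟩
      · rintro a b ⟨e, he, _⟩
        exact absurd he (Set.notMem_empty e)
      · intro a; rfl
      · rintro ⟨a⟩; rfl
    omega
  | @insert e A he _ ih =>
    rw [Set.ncard_insert_of_notMem he]
    induction hxy : G.ends e using Sym2.ind with
    | _ x y =>
      have h1 := card_add_le (r := fun u v : G.V => ∃ e ∈ A, G.ends e = s(u, v)) x y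
      have h2 : comps G (insert e A) = Nat.card (Quot fun p q : G.V =>
          (∃ e ∈ A, G.ends e = s(p, q)) ∨ (p = x ∧ q = y)) := by
        apply card_quot_congr
        · rintro a b ⟨f, hf, hab⟩
          rcases hf with rfl | hf
          · rw [hxy] at hab
            rcases Sym2.eq_iff.1 hab with ⟨rfl, rfl⟩ | ⟨rfl, rfl⟩
            · exact Quot.sound (Or.inr ⟨rfl, rfl⟩)
            · refine Eq.symm (Quot.sound ?_)
              exact Or.inr ⟨rfl, rfl⟩
          · exact Quot.sound (Or.inl ⟨f, hf, hab⟩)
        · rintro a b (⟨f, hf, hab⟩ | ⟨rfl, rfl⟩)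
          · exact Quot.sound ⟨f, Or.inr hf, hab⟩
          · exact Quot.sound ⟨e, Or.inl rfl, hxy⟩
      have h3 : comps G A = Nat.card (Quot fun u v : G.V => ∃ e ∈ A, G.ends e = s(u, v)) := rfl
      omega

variable (R : Type) [CommRing R]

theorem tutte_eq (G : MGraph) :
    (MvPolynomial.X 0 - 1) ^ comps G Set.univ * (MvPolynomial.X 1 - 1) ^ Nat.card G.V *
      tutte R G = ∑ᶠ A : Set G.E, (MvPolynomial.X 0 - 1) ^ comps G A *
        (MvPolynomial.X 1 - 1) ^ (A.ncard + comps G A) := by
  classical
  have := G.finE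
  have := Fintype.ofFinite (Set G.E)
  rw [tutte, finsum_eq_sum_of_fintype, finsum_eq_sum_of_fintype, Finset.mul_sum]
  apply Finset.sum_congr rfl
  intro A _
  have h1 := comps_anti G (Set.subset_univ A)
  have h2 := comps_le G A
  have h3 := comps_le G Set.univ
  have h4 := le_comps G A
  have e1 : comps G A = comps G Set.univ + (rk G Set.univ - rk G A) := by
    unfold rk; omega
  have e2 : A.ncard + comps G A = Nat.card G.V + (A.ncard - rk G A) := by
    unfold rk; omega
  rw [e2]
  conv_rhs => rw [e1]
  ring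

theorem comps_eq_kap (G : MGraph) (s : G.V) (A : Set G.E) : comps G A = kap G.ends A {s} := by
  apply card_quot_congr
  · intro a b h
    exact Quot.sound (Or.inl h)
  · rintro a b (h | ⟨ha, hb⟩)
    · exact Quot.sound h
    · rw [Set.mem_singleton_iff.1 ha, Set.mem_singleton_iff.1 hb]

/-- The edges of the contraction without loops, as edges of the graph. -/
def emb (G : MGraph) (U : Set G.V) : (noLoops (contract G U)).E ↪ G.E :=
  ⟨fun e => e.1, fun _ _ h => Subtype.ext h⟩

theorem comps_contract (G : MGraph) (U : Set G.V) (A : Set (noLoops (contract G U)).E) :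
    comps (noLoops (contract G U)) A = kap G.ends (emb G U '' A) U := by
  apply card_quot_quot
  · intro a b h
    exact Quot.sound (Or.inr h)
  · rintro a b ⟨e, he, hab⟩
    have hmk : ∀ c d : G.V, Quot.mk (fun a b : G.V => a ∈ U ∧ b ∈ U) c = Quot.mk _ d →
        Quot.mk (rel G.ends (emb G U '' A) U) c = Quot.mk _ d := by
      intro c d h
      exact congrArg (Quot.lift (Quot.mk (rel G.ends (emb G U '' A) U))
        (fun a b h => Quot.sound (Or.inr h))) h
    have hab' : (G.ends e.1).map (Quot.mk _) = s(Quot.mk _ a, Quot.mk _ b) := hab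
    induction hcd : G.ends e.1 using Sym2.ind with
    | _ c d =>
      have hedge : Quot.mk (rel G.ends (emb G U '' A) U) c = Quot.mk _ d :=
        Quot.sound (Or.inl ⟨e.1, ⟨e, he, rfl⟩, hcd⟩)
      rw [hcd, Sym2.map_mk] at hab'
      rcases Sym2.eq_iff.1 hab' with ⟨h1, h2⟩ | ⟨h1, h2⟩
      · rw [← hmk _ _ h1, ← hmk _ _ h2, hedge]
      · rw [← hmk _ _ h1, ← hmk _ _ h2, hedge]
  · rintro a b (⟨_, ⟨e, he, rfl⟩, hab⟩ | h)
    · refine Quot.sound ⟨e, he, ?_⟩
      show (G.ends (emb G U e)).map (Quot.mk _) = _
      rw [hab, Sym2.map_mk]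
      rfl
    · exact congrArg (Quot.mk _) (Quot.sound h)

theorem card_contract (G : MGraph) (U : Set G.V) :
    Nat.card (noLoops (contract G U)).V = kap G.ends ∅ U := by
  apply card_quot_congr
  · intro a b h
    exact Quot.sound (Or.inr h)
  · rintro a b (⟨e, he, _⟩ | h)
    · exact absurd he (Set.notMem_empty e)
    · exact Quot.sound h

theorem isDiag_iff (G : MGraph) (U : Set G.V) (e : G.E) :
    ((contract G U).ends e).IsDiag ↔ IsLoopMod G.ends U e := by
  have hmk : ∀ c d : G.V, Quot.mk (fun a b : G.V => a ∈ U ∧ b ∈ U) c = Quot.mk _ d ↔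
      c = d ∨ (c ∈ U ∧ d ∈ U) := by
    intro c d
    constructor
    · intro h
      rw [Quot.eq] at h
      induction h with
      | rel _ _ h => exact Or.inr h
      | refl => exact Or.inl rfl
      | symm _ _ _ ih => exact ih.imp Eq.symm And.symm
      | trans _ _ _ _ _ ih1 ih2 =>
        rcases ih1 with rfl | h1
        · exact ih2
        · rcases ih2 with rfl | h2
          · exact Or.inr h1
          · exact Or.inr ⟨h1.1, h2.2⟩
    · rintro (rfl | h)
      · rfl
      · exact Quot.sound h
  have h0 : ((contract G U).ends e).IsDiag ↔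
      Sym2.IsDiag ((G.ends e).map (Quot.mk fun a b : G.V => a ∈ U ∧ b ∈ U)) := Iff.rfl
  rw [h0]
  constructor
  · intro h a b hab
    rw [hab, Sym2.map_mk, Sym2.mk_isDiag_iff] at h
    exact (hmk a b).1 h
  · intro h
    induction hcd : G.ends e using Sym2.ind with
    | _ c d =>
      rw [Sym2.map_mk, Sym2.mk_isDiag_iff]
      exact (hmk c d).2 (h c d hcd)

end Graph

/-! ### The main theorem -/

theorem sum_contract (R : Type) [CommRing R] (G : MGraph) [Fintype G.E] (U : Set G.V)
    (F : Finset G.E) (hF : ∀ e, e ∈ F ↔ ¬ IsLoopMod G.ends U e) :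
    (∑ᶠ A : Set (noLoops (contract G U)).E,
      (MvPolynomial.X 0 - 1 : MvPolynomial (Fin 2) R) ^ comps (noLoops (contract G U)) A *
        (MvPolynomial.X 1 - 1) ^ (A.ncard + comps (noLoops (contract G U)) A)) =
      Z R G.ends F U := by
  classical
  have := (noLoops (contract G U)).finE
  have := Fintype.ofFinite (noLoops (contract G U)).E
  have := Fintype.ofFinite (Set (noLoops (contract G U)).E)
  rw [finsum_eq_sum_of_fintype, Z]
  have hval : ∀ A : Set (noLoops (contract G U)).E,
      (((Finset.univ.filter fun e => e ∈ A).map (emb G U) : Finset G.E) : Set G.E) =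
        emb G U '' A := by
    intro A
    rw [Finset.coe_map, Finset.coe_filter_univ, Set.ofPred_mem_eq]
  have hcard : ∀ A : Set (noLoops (contract G U)).E,
      ((Finset.univ.filter fun e => e ∈ A).map (emb G U) : Finset G.E).card = A.ncard := by
    intro A
    rw [Finset.card_map, ← Set.ncard_coe_finset, Finset.coe_filter_univ, Set.ofPred_mem_eq]
  refine Finset.sum_nbij' (fun A => (Finset.univ.filter fun e => e ∈ A).map (emb G U))
    (fun A => {e | emb G U e ∈ A}) ?_ ?_ ?_ ?_ ?_
  · intro A _
    rw [Finset.mem_powerset]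
    intro e he
    rw [Finset.mem_map] at he
    obtain ⟨f, _, rfl⟩ := he
    rw [hF]
    exact fun h => f.2 ((isDiag_iff G U f.1).2 h)
  · intro A _
    exact Finset.mem_univ _
  · intro A _
    ext e
    show emb G U e ∈ (Finset.univ.filter fun e => e ∈ A).map (emb G U) ↔ e ∈ A
    rw [Finset.mem_map' (emb G U), Finset.mem_filter]
    exact ⟨fun h => h.2, fun h => ⟨Finset.mem_univ _, h⟩⟩
  · intro A hA
    rw [Finset.mem_powerset] at hA
    ext e
    rw [Finset.mem_map]
    constructor
    · rintro ⟨f, hf, rfl⟩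
      simp only [Finset.mem_filter, Finset.mem_univ, true_and] at hf
      exact hf
    · intro he
      obtain ⟨f, hf⟩ : ∃ f, emb G U f = e :=
        ⟨⟨e, fun h => (hF e).1 (hA he) ((isDiag_iff G U e).1 h)⟩, rfl⟩
      refine ⟨f, ?_, hf⟩
      simp only [Finset.mem_filter, Finset.mem_univ, true_and]
      rw [← hf] at he
      exact he
  · intro A _
    rw [comps_contract, hval, hcard]

/-- Being the prescribed multiple of an element of the ideal. -/
def InJ {R : Type} [CommRing R] (I : Ideal (MvPolynomial (Fin 2) R)) (m : ℕ)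
    (p : MvPolynomial (Fin 2) R) : Prop :=
  ∃ t ∈ I, p = (MvPolynomial.X 0 - 1) * (MvPolynomial.X 1 - 1) ^ m * t

/-- **Positive answer to Q1**, over every integral domain `R` (in particular `ℚ` and `ℤ`). -/
theorem result (R : Type) [CommRing R] [IsDomain R] (G : MGraph)
    (hG : comps G Set.univ = 1) (hV : 2 ≤ Nat.card G.V) (s : G.V) :
    tutte R G ∈ Ideal.span {p | ∃ W : Set G.V, W.Nonempty ∧ W ⊆ nbrs G s ∧
      p = tutte R (noLoops (contract G (insert s W)))} := by
  classical
  have := G.finE
  have := G.finV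
  have := Fintype.ofFinite G.E
  have := Fintype.ofFinite G.V
  set I := Ideal.span {p | ∃ W : Set G.V, W.Nonempty ∧ W ⊆ nbrs G s ∧
      p = tutte R (noLoops (contract G (insert s W)))} with hI
  set n := Nat.card G.V with hn
  -- all classes coincide
  have hone : ∀ a b, Quot.mk (fun u v : G.V => ∃ e ∈ (Set.univ : Set G.E),
      G.ends e = s(u, v)) a = Quot.mk _ b := by
    have h1 : Nat.card (Quot fun u v : G.V => ∃ e ∈ (Set.univ : Set G.E),
      G.ends e = s(u, v)) = 1 := hG
    have h2 := (Nat.card_eq_one_iff_unique.1 h1).1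
    exact fun a b => Subsingleton.elim _ _
  -- the edge sets
  let F : Finset G.V → Finset G.E := fun D => Finset.univ.filter fun e =>
    ∀ d ∈ D, G.ends e ≠ s(s, d)
  -- base case
  have hbase : ∀ W : Finset G.V, W.Nonempty → (W : Set G.V) ⊆ nbrs G s →
      InJ I (n - W.card) (Z R G.ends (F W) (insert s (W : Set G.V))) := by
    intro W hW hWN
    have hsW : s ∉ W := fun h => (hWN h).1 rfl
    set U : Set G.V := insert s (W : Set G.V) with hU
    let B := (F W).filter fun e => IsLoopMod G.ends U e
    let F' := (F W).filter fun e => ¬ IsLoopMod G.ends U e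
    have hFB : F W = F' ∪ B := by
      ext e
      simp only [F', B, Finset.mem_union, Finset.mem_filter]
      by_cases h : IsLoopMod G.ends U e <;> simp [h]
    have hF' : ∀ e, e ∈ F' ↔ ¬ IsLoopMod G.ends U e := by
      intro e
      simp only [F', F, Finset.mem_filter, Finset.mem_univ, true_and]
      refine ⟨fun h => h.2, fun h => ⟨?_, h⟩⟩
      intro d hd he
      apply h
      intro a b hab
      rw [he] at hab
      rcases Sym2.eq_iff.1 hab with ⟨rfl, rfl⟩ | ⟨rfl, rfl⟩
      · exact Or.inr ⟨Or.inl rfl, Or.inr hd⟩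
      · exact Or.inr ⟨Or.inr hd, Or.inl rfl⟩
    have hZ : Z R G.ends (F W) U = MvPolynomial.X 1 ^ B.card * Z R G.ends F' U := by
      rw [hFB]
      apply Z_loops
      · intro e he
        exact (Finset.mem_filter.1 he).2
      · intro e he he'
        exact (Finset.mem_filter.1 he').2 (Finset.mem_filter.1 he).2
    have hc1 : comps (noLoops (contract G U)) Set.univ = 1 := by
      have hsub : ∀ a b : (noLoops (contract G U)).V,
          Quot.mk (fun u v => ∃ e ∈ (Set.univ : Set (noLoops (contract G U)).E),
            (noLoops (contract G U)).ends e = s(u, v)) a = Quot.mk _ b := by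
        have hl : ∀ a b : G.V, (∃ e ∈ (Set.univ : Set G.E), G.ends e = s(a, b)) →
            Quot.mk (fun u v => ∃ e ∈ (Set.univ : Set (noLoops (contract G U)).E),
              (noLoops (contract G U)).ends e = s(u, v))
              (Quot.mk (fun a b : G.V => a ∈ U ∧ b ∈ U) a) =
              Quot.mk _ (Quot.mk (fun a b : G.V => a ∈ U ∧ b ∈ U) b) := by
          rintro a b ⟨e, _, hab⟩
          by_cases he : IsLoopMod G.ends U e
          · rcases he a b hab with rfl | h
            · rfl
            · exact congrArg _ (Quot.sound h)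
          · refine Quot.sound ⟨⟨e, fun h => he ((isDiag_iff G U e).1 h)⟩, trivial, ?_⟩
            show (G.ends e).map (Quot.mk _) = _
            rw [hab, Sym2.map_mk]
            rfl
        rintro ⟨a⟩ ⟨b⟩
        exact congrArg (Quot.lift (fun a => Quot.mk _ (Quot.mk _ a)) hl) (hone a b)
      have hun : Subsingleton (Quot fun u v => ∃ e ∈ (Set.univ :
          Set (noLoops (contract G U)).E), (noLoops (contract G U)).ends e = s(u, v)) := by
        refine ⟨?_⟩
        rintro ⟨a⟩ ⟨b⟩
        exact hsub a b
      have hne : Nonempty (Quot fun u v => ∃ e ∈ (Set.univ :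
          Set (noLoops (contract G U)).E), (noLoops (contract G U)).ends e = s(u, v)) :=
        ⟨Quot.mk _ (Quot.mk _ s)⟩
      exact Nat.card_eq_one_iff_unique.2 ⟨hun, hne⟩
    have hc2 : Nat.card (noLoops (contract G U)).V = n - W.card := by
      rw [card_contract]
      have h := kap_empty_card (ends := G.ends) s W hsW
      rw [← hU, ← hn] at h
      omega
    have hT := tutte_eq R (noLoops (contract G U))
    rw [hc1, hc2, pow_one, sum_contract R G U F' hF'] at hT
    refine ⟨MvPolynomial.X 1 ^ B.card * tutte R (noLoops (contract G U)), ?_, ?_⟩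
    · apply Ideal.mul_mem_left
      exact Ideal.subset_span ⟨W, hW, hWN, rfl⟩
    · rw [hZ, ← hT]
      ring
  -- deletion of one more neighbour
  have hstep : ∀ (D : Finset G.V) (u : G.V), u ∉ D → ∀ U : Set G.V, s ∈ U →
      ∃ c, Z R G.ends (F D) U = Z R G.ends (F (insert u D)) U +
        (MvPolynomial.X 1 - 1) * (c * Z R G.ends (F (insert u D)) (insert u U)) := by
    intro D u hu U hs
    have hFB : F D = F (insert u D) ∪ (F D).filter fun e => G.ends e = s(s, u) := by
      ext e
      simp only [F, Finset.mem_union, Finset.mem_filter, Finset.mem_univ, true_and,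
        Finset.forall_mem_insert]
      tauto
    obtain ⟨c, hc⟩ := Z_edges R G.ends (F := F (insert u D)) (u := u) hs
      ((F D).filter fun e => G.ends e = s(s, u)) (fun e he => (Finset.mem_filter.1 he).2) (by
        intro e he he'
        simp only [F, Finset.mem_filter, Finset.mem_univ, true_and,
          Finset.forall_mem_insert] at he he'
        exact he'.1 he.2)
    exact ⟨c, by rw [← hc, ← hFB]⟩
  -- closure properties
  have hsub : ∀ (m : ℕ) (p q : MvPolynomial (Fin 2) R), InJ I m p → InJ I m q →
      InJ I m (p - q) := by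
    rintro m p q ⟨t, ht, rfl⟩ ⟨t', ht', rfl⟩
    exact ⟨t - t', I.sub_mem ht ht', by ring⟩
  have hadd : ∀ (m : ℕ) (p q : MvPolynomial (Fin 2) R), InJ I m p → InJ I m q →
      InJ I m (p + q) := by
    rintro m p q ⟨t, ht, rfl⟩ ⟨t', ht', rfl⟩
    exact ⟨t + t', I.add_mem ht ht', by ring⟩
  have hmul : ∀ (m : ℕ) (p c : MvPolynomial (Fin 2) R), InJ I m p →
      InJ I (m + 1) ((MvPolynomial.X 1 - 1) * (c * p)) := by
    rintro m p c ⟨t, ht, rfl⟩
    exact ⟨c * t, I.mul_mem_left c ht, by ring⟩
  have hcardW : ∀ W : Finset G.V, s ∉ W → W.card + 1 ≤ n := by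
    intro W hW
    have h1 := Finset.card_lt_univ_of_notMem hW
    rw [hn, Nat.card_eq_fintype_card]
    omega
  -- the main induction
  have hmain : ∀ (k : ℕ) (W D : Finset G.V), W ⊆ D → (D \ W).card = k → W.Nonempty →
      (D : Set G.V) ⊆ nbrs G s →
      InJ I (n - W.card) (Z R G.ends (F D) (insert s (W : Set G.V))) := by
    intro k
    induction k with
    | zero =>
      intro W D hWD hk hW hD
      have : D = W := by
        refine Finset.Subset.antisymm ?_ hWD
        rw [Finset.card_eq_zero] at hk
        exact Finset.sdiff_eq_empty_iff_subset.1 hk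
      subst this
      exact hbase D hW hD
    | succ k ih =>
      intro W D hWD hk hW hD
      obtain ⟨u, hu⟩ := Finset.card_pos.1 (by omega : 0 < (D \ W).card)
      rw [Finset.mem_sdiff] at hu
      have hsD : s ∉ D := fun h => (hD h).1 rfl
      have hD' : insert u (D.erase u) = D := Finset.insert_erase hu.1
      obtain ⟨c, hc⟩ := hstep (D.erase u) u (Finset.notMem_erase u D)
        (insert s (W : Set G.V)) (Or.inl rfl)
      rw [hD'] at hc
      have h1 := ih W (D.erase u) (fun x hx => Finset.mem_erase.2
        ⟨fun h => hu.2 (h ▸ hx), hWD hx⟩) (by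
          have : D.erase u \ W = (D \ W).erase u := by
            ext x
            simp only [Finset.mem_sdiff, Finset.mem_erase]
            tauto
          rw [this, Finset.card_erase_of_mem (Finset.mem_sdiff.2 hu)]
          omega) hW (fun x hx => hD (Finset.mem_of_mem_erase hx))
      have h2 := ih (insert u W) D (Finset.insert_subset hu.1 hWD) (by
        have : D \ insert u W = (D \ W).erase u := by
          ext x
          simp only [Finset.mem_sdiff, Finset.mem_insert, Finset.mem_erase]
          tauto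
        rw [this, Finset.card_erase_of_mem (Finset.mem_sdiff.2 hu)]
        omega) (Finset.insert_nonempty _ _) hD
      rw [Finset.card_insert_of_notMem hu.2, Finset.coe_insert, Set.insert_comm] at h2
      have h3 := hmul _ _ c h2
      have h4 := hcardW (insert u W) (by
        rw [Finset.mem_insert, not_or]
        exact ⟨fun h => hsD (h ▸ hu.1), fun h => hsD (hWD h)⟩)
      rw [Finset.card_insert_of_notMem hu.2] at h4
      have h5 : n - (W.card + 1) + 1 = n - W.card := by omega
      rw [h5] at h3
      have h6 : Z R G.ends (F D) (insert s (W : Set G.V)) =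
          Z R G.ends (F (D.erase u)) (insert s (W : Set G.V)) - (MvPolynomial.X 1 - 1) *
            (c * Z R G.ends (F D) (insert u (insert s (W : Set G.V)))) := by
        rw [hc]; ring
      rw [h6]
      exact hsub _ _ _ h1 h3
  -- the neighbourhood as a finset
  let N : Finset G.V := Finset.univ.filter fun w => w ∈ nbrs G s
  have hNsub : ∀ D ⊆ N, (D : Set G.V) ⊆ nbrs G s := by
    intro D hD x hx
    exact (Finset.mem_filter.1 (hD hx)).2
  -- `s` has a neighbour
  obtain ⟨w, hw⟩ : N.Nonempty := by
    by_contra hne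
    rw [Finset.not_nonempty_iff_eq_empty] at hne
    have hnb : ∀ (e : G.E) (b : G.V), G.ends e = s(s, b) → b = s := by
      intro e b he
      by_contra hb
      have : b ∈ N := Finset.mem_filter.2 ⟨Finset.mem_univ _, hb, e, he⟩
      rw [hne] at this
      simp at this
    have hl : ∀ a b : G.V, (∃ e ∈ (Set.univ : Set G.E), G.ends e = s(a, b)) →
        (a = s) = (b = s) := by
      rintro a b ⟨e, _, hab⟩
      apply propext
      constructor
      · rintro rfl
        exact hnb e b hab
      · rintro rfl
        exact hnb e a (hab.trans Sym2.eq_swap)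
    obtain ⟨t, ht⟩ : ∃ t : G.V, t ≠ s := by
      have : 1 < Fintype.card G.V := by
        rw [← Nat.card_eq_fintype_card]
        omega
      exact Fintype.exists_ne_of_one_lt_card this s
    have h1 := congrArg (Quot.lift (fun a => a = s) hl) (hone s t)
    have h2 : (s = s) = (t = s) := h1
    exact ht (h2 ▸ rfl)
  have hws : s ≠ w := fun h => (Finset.mem_filter.1 hw).2.1 h.symm
  -- all the edges from `s` deleted
  have hN : InJ I n (Z R G.ends (F N) {s}) := by
    have h1 : Z R G.ends (F N) {s} = (MvPolynomial.X 0 - 1) * (MvPolynomial.X 1 - 1) *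
        Z R G.ends (F N) (insert w {s}) := by
      apply Z_isolated R G.ends hws
      intro e he b hb
      by_contra hbs
      exact (Finset.mem_filter.1 he).2 b
        (Finset.mem_filter.2 ⟨Finset.mem_univ _, hbs, e, hb⟩) hb
    obtain ⟨t, ht, h2⟩ := hmain _ {w} N (by simpa using hw) rfl ⟨w, by simp⟩
      (hNsub N (Finset.Subset.refl N))
    rw [Finset.card_singleton, Finset.coe_singleton, Set.pair_comm] at h2
    have h3 : n = n - 1 + 1 := by omega
    refine ⟨(MvPolynomial.X 0 - 1) * t, I.mul_mem_left _ ht, ?_⟩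
    rw [h1, h2]
    conv_rhs => rw [h3]
    ring
  -- adding them back
  have hback : ∀ (k : ℕ) (D : Finset G.V), D ⊆ N → (N \ D).card = k →
      InJ I n (Z R G.ends (F D) {s}) := by
    intro k
    induction k with
    | zero =>
      intro D hD hk
      have : D = N := by
        refine Finset.Subset.antisymm hD ?_
        rw [Finset.card_eq_zero] at hk
        exact Finset.sdiff_eq_empty_iff_subset.1 hk
      rw [this]
      exact hN
    | succ k ih =>
      intro D hD hk
      obtain ⟨u, hu⟩ := Finset.card_pos.1 (by omega : 0 < (N \ D).card)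
      rw [Finset.mem_sdiff] at hu
      obtain ⟨c, hc⟩ := hstep D u hu.2 {s} rfl
      have h1 := ih (insert u D) (Finset.insert_subset hu.1 hD) (by
        have : N \ insert u D = (N \ D).erase u := by
          ext x
          simp only [Finset.mem_sdiff, Finset.mem_insert, Finset.mem_erase]
          tauto
        rw [this, Finset.card_erase_of_mem (Finset.mem_sdiff.2 hu)]
        omega)
      have h2 := hmain _ {u} (insert u D) (by simp) rfl ⟨u, by simp⟩
        (hNsub _ (Finset.insert_subset hu.1 hD))
      rw [Finset.card_singleton, Finset.coe_singleton, Set.pair_comm] at h2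
      have h3 := hmul _ _ c h2
      have h5 : n - 1 + 1 = n := by omega
      rw [h5] at h3
      rw [hc]
      exact hadd _ _ _ h1 h3
  obtain ⟨t, ht, h0⟩ := hback _ ∅ (Finset.empty_subset _) rfl
  have hF0 : F ∅ = Finset.univ := by simp [F]
  -- conclusion
  have hT := tutte_eq R G
  rw [hG, pow_one, ← hn] at hT
  have hsum : (∑ᶠ A : Set G.E, (MvPolynomial.X 0 - 1 : MvPolynomial (Fin 2) R) ^ comps G A *
      (MvPolynomial.X 1 - 1) ^ (A.ncard + comps G A)) = Z R G.ends (F ∅) {s} := by
    have := Fintype.ofFinite (Set G.E)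
    rw [finsum_eq_sum_of_fintype, Z, hF0, Finset.powerset_univ]
    refine Finset.sum_nbij' (fun A => A.toFinset) (fun A => (A : Set G.E)) (by simp) (by simp)
      (by simp) (by simp) ?_
    intro A _
    rw [comps_eq_kap G s, Set.coe_toFinset, Set.ncard_eq_toFinset_card']
  rw [hsum, h0] at hT
  have hx : (MvPolynomial.X 0 - 1 : MvPolynomial (Fin 2) R) ≠ 0 := by
    intro h
    have := congrArg (MvPolynomial.eval fun _ => (0 : R)) h
    simp at this
  have hy : (MvPolynomial.X 1 - 1 : MvPolynomial (Fin 2) R) ≠ 0 := by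
    intro h
    have := congrArg (MvPolynomial.eval fun _ => (0 : R)) h
    simp at this
  have hcancel : tutte R G = t := by
    have := mul_left_cancel₀ (mul_ne_zero hx (pow_ne_zero n hy)) hT
    exact this
  rw [hcancel]
  exact ht

end Pool.Agent.Results.MP_8e541a_co.TutteIdeal
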